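import Pool.Agent.Helper34.PU.Goals
import Pool.Agent.Helper30.Brouwer.Kakutani

/-!
# Packet LL for MP_8060f4_co (helper34): three linear systems solved by Brouwer's theorem
-/

set_option autoImplicit false

open Finset
open scoped Classical

namespace Pool.Agent.Helper89.PU

open Pool.Agent.Helper34.PU

theorem fp {V : Type} (Z : Finset V) (κ : ℝ) (hκ : 0 ≤ κ) (T : (V → ℝ) → V → ℝ)
    (hT : ∀ z, Continuous (fun c => T c z))
    (hm : ∀ c : V → ℝ, (∀ z ∈ Z, 0 ≤ c z ∧ c z ≤ κ) → ∀ z ∈ Z, 0 ≤ T c z ∧ T c z ≤ κ) :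
    ∃ c : V → ℝ, (∀ z ∈ Z, 0 ≤ c z ∧ c z ≤ κ) ∧ ∀ z ∈ Z, T c z = c z := by
  let ext : ({z // z ∈ Z} → ℝ) → V → ℝ := fun w v => if h : v ∈ Z then w ⟨v, h⟩ else 0
  have hext : Continuous ext := by
    apply continuous_pi
    intro v
    by_cases h : v ∈ Z
    · have : (fun w : {z // z ∈ Z} → ℝ => ext w v) = fun w => w ⟨v, h⟩ := by
        funext w; simp only [ext, dif_pos h]
      rw [this]
      exact continuous_apply _
    · have : (fun w : {z // z ∈ Z} → ℝ => ext w v) = fun w => 0 := by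
        funext w; simp only [ext, dif_neg h]
      rw [this]
      exact continuous_const
  have hextz : ∀ (w : {z // z ∈ Z} → ℝ) (z : V) (hz : z ∈ Z), ext w z = w ⟨z, hz⟩ := by
    intro w z hz; simp only [ext, dif_pos hz]
  let f : ({z // z ∈ Z} → ℝ) → ({z // z ∈ Z} → ℝ) := fun w z => T (ext w) z.1
  have hf : Continuous f := by
    apply continuous_pi
    intro z
    exact (hT z.1).comp hext
  obtain ⟨w, hw, hfw⟩ := Pool.Agent.Helper30.Brouwer.brouwer_fd
    (Set.Icc (0 : {z // z ∈ Z} → ℝ) (fun _ => κ)) isCompact_Icc (convex_Icc _ _)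
    ⟨0, Set.mem_Icc.mpr ⟨le_refl _, fun _ => hκ⟩⟩ f hf.continuousOn (by
      intro w hw
      rw [Set.mem_Icc] at hw
      have h1 : ∀ z ∈ Z, 0 ≤ ext w z ∧ ext w z ≤ κ := by
        intro z hz
        rw [hextz w z hz]
        exact ⟨hw.1 ⟨z, hz⟩, hw.2 ⟨z, hz⟩⟩
      rw [Set.mem_Icc]
      exact ⟨fun z => (hm _ h1 z.1 z.2).1, fun z => (hm _ h1 z.1 z.2).2⟩)
  rw [Set.mem_Icc] at hw
  refine ⟨ext w, ?_, ?_⟩
  · intro z hz
    rw [hextz w z hz]
    exact ⟨hw.1 ⟨z, hz⟩, hw.2 ⟨z, hz⟩⟩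
  · intro z hz
    rw [hextz w z hz]
    exact congrFun hfw ⟨z, hz⟩

theorem ll1 : LL1Stmt := by
  intro V Z θ r g hθ hZ hr hg
  obtain ⟨c, hc, hfc⟩ := fp Z θ hθ.le
    (fun c z => θ - (1 - ∑ y ∈ Z, c y) * r z - ∑ y ∈ Z.erase z, c y * g y z)
    (fun z => by fun_prop) (by
      intro c hc z hz
      have hsum : ∑ y ∈ Z, c y ≤ 1 := by
        calc ∑ y ∈ Z, c y ≤ ∑ y ∈ Z, θ := Finset.sum_le_sum fun y hy => (hc y hy).2
          _ = Z.card * θ := by rw [Finset.sum_const, nsmul_eq_mul]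
          _ ≤ 1 := hZ
      have hg0 : 0 ≤ ∑ y ∈ Z.erase z, c y * g y z := by
        apply Finset.sum_nonneg
        intro y hy
        exact mul_nonneg (hc y (Finset.mem_of_mem_erase hy)).1
          (hg y (Finset.mem_of_mem_erase hy) z hz (Finset.ne_of_mem_erase hy)).1
      have hg1 : ∑ y ∈ Z.erase z, c y * g y z ≤ (∑ y ∈ Z.erase z, c y) * θ := by
        rw [Finset.sum_mul]
        apply Finset.sum_le_sum
        intro y hy
        exact mul_le_mul_of_nonneg_left
          (hg y (Finset.mem_of_mem_erase hy) z hz (Finset.ne_of_mem_erase hy)).2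
          (hc y (Finset.mem_of_mem_erase hy)).1
      have hsp : c z + ∑ y ∈ Z.erase z, c y = ∑ y ∈ Z, c y := Finset.add_sum_erase Z c hz
      have hrz := hr z hz
      have hcz := hc z hz
      constructor
      · nlinarith [mul_nonneg (sub_nonneg.mpr hsum) (sub_nonneg.mpr hrz.2), mul_nonneg hcz.1 hθ.le]
      · nlinarith [mul_nonneg (sub_nonneg.mpr hsum) hrz.1])
  refine ⟨c, hc, ?_⟩
  intro z hz
  have := hfc z hz
  linarith

theorem ll2 : LL2Stmt := by
  intro V Z θ τ g hτ hθ hZ hg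
  obtain ⟨c, hc, hfc⟩ := fp Z τ hτ
    (fun c z => τ - ∑ y ∈ Z.erase z, c y * g y z)
    (fun z => by fun_prop) (by
      intro c hc z hz
      have hg0 : 0 ≤ ∑ y ∈ Z.erase z, c y * g y z := by
        apply Finset.sum_nonneg
        intro y hy
        exact mul_nonneg (hc y (Finset.mem_of_mem_erase hy)).1
          (hg y (Finset.mem_of_mem_erase hy) z hz (Finset.ne_of_mem_erase hy)).1
      have hg1 : ∑ y ∈ Z.erase z, c y * g y z ≤ ((Z.card : ℝ) - 1) * θ * τ := by
        calc ∑ y ∈ Z.erase z, c y * g y z ≤ ∑ y ∈ Z.erase z, τ * θ := by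
              apply Finset.sum_le_sum
              intro y hy
              have h1 := hc y (Finset.mem_of_mem_erase hy)
              have h2 := hg y (Finset.mem_of_mem_erase hy) z hz (Finset.ne_of_mem_erase hy)
              exact mul_le_mul h1.2 h2.2 h2.1 hτ
          _ = ((Z.card : ℝ) - 1) * θ * τ := by
              rw [Finset.sum_const, nsmul_eq_mul, Finset.card_erase_of_mem hz,
                Nat.cast_sub (Finset.card_pos.mpr ⟨z, hz⟩)]
              push_cast
              ring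
      constructor
      · nlinarith [mul_le_mul_of_nonneg_right hZ hτ]
      · linarith)
  refine ⟨c, hc, ?_⟩
  intro z hz
  have := hfc z hz
  linarith

theorem ll3 : LL3Stmt := by
  intro V Z θ τ g hτ hτθ hθ hZ hg
  have h1τ : 0 < 1 - τ := by linarith
  set κ : ℝ := (θ - τ) / (1 - τ) with hκ
  have hκ0 : 0 ≤ κ := div_nonneg (by linarith) h1τ.le
  have hκ1 : κ * (1 - τ) = θ - τ := by rw [hκ]; field_simp
  have hZκ : (Z.card : ℝ) * κ ≤ 1 := by
    rw [hκ, ← mul_div_assoc, div_le_one h1τ]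
    exact hZ
  obtain ⟨c, hc, hfc⟩ := fp Z κ hκ0
    (fun c z => θ - (1 - ∑ y ∈ Z, c y) * τ - ∑ y ∈ Z.erase z, c y * g y z)
    (fun z => by fun_prop) (by
      intro c hc z hz
      have hsum : ∑ y ∈ Z, c y ≤ 1 := by
        calc ∑ y ∈ Z, c y ≤ ∑ y ∈ Z, κ := Finset.sum_le_sum fun y hy => (hc y hy).2
          _ = Z.card * κ := by rw [Finset.sum_const, nsmul_eq_mul]
          _ ≤ 1 := hZκ
      have hg0 : (∑ y ∈ Z.erase z, c y) * τ ≤ ∑ y ∈ Z.erase z, c y * g y z := by
        rw [Finset.sum_mul]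
        apply Finset.sum_le_sum
        intro y hy
        exact mul_le_mul_of_nonneg_left
          (hg y (Finset.mem_of_mem_erase hy) z hz (Finset.ne_of_mem_erase hy)).1
          (hc y (Finset.mem_of_mem_erase hy)).1
      have hg1 : ∑ y ∈ Z.erase z, c y * g y z ≤ (∑ y ∈ Z.erase z, c y) * θ := by
        rw [Finset.sum_mul]
        apply Finset.sum_le_sum
        intro y hy
        exact mul_le_mul_of_nonneg_left
          (hg y (Finset.mem_of_mem_erase hy) z hz (Finset.ne_of_mem_erase hy)).2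
          (hc y (Finset.mem_of_mem_erase hy)).1
      have hsp : c z + ∑ y ∈ Z.erase z, c y = ∑ y ∈ Z, c y := Finset.add_sum_erase Z c hz
      have hcz := hc z hz
      have hs1 : ∑ y ∈ Z.erase z, c y ≤ 1 := by linarith
      constructor
      · nlinarith [mul_nonneg (sub_nonneg.mpr hs1) (sub_nonneg.mpr hτθ), mul_nonneg hcz.1 hτ]
      · nlinarith [mul_le_mul_of_nonneg_right hcz.2 hτ])
  refine ⟨c, ?_, ?_⟩
  · intro z hz
    refine ⟨(hc z hz).1, ?_⟩
    rw [← hκ1]
    exact mul_le_mul_of_nonneg_right (hc z hz).2 h1τ.le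
  · intro z hz
    have := hfc z hz
    linarith

end Pool.Agent.Helper89.PU
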