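import Pool.Agent.Helper34.PU.Goals

/-!
# Packet NEST for MP_8060f4_co (helper34): nested good families from dependent random choice
-/

set_option autoImplicit false

open Finset Function
open scoped Classical

namespace Pool.Agent.Helper89.PU

open Pool.Agent.Helper34.PU

/-- the numerical condition of dependent random choice -/
theorem numc (l d t M : ℕ) (p ε : ℝ) (hp : 0 < p) (hM2 : 2 ≤ M)
    (hM : 2 / p ^ t ≤ M) (ht : ((l : ℝ) + 1) * d + 1 ≤ ε * t) :
    ((M : ℝ) ^ l + 1) ^ d * ((M : ℝ) ^ (-ε)) ^ t ≤ p ^ t / 2 := by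
  have hM0 : (0 : ℝ) < M := by
    have : (2 : ℝ) ≤ M := by exact_mod_cast hM2
    linarith
  have hM1 : (1 : ℝ) ≤ M := by
    have : (2 : ℝ) ≤ M := by exact_mod_cast hM2
    linarith
  have hMl : (1 : ℝ) ≤ (M : ℝ) ^ l := one_le_pow₀ hM1
  have h1 : (M : ℝ) ^ l + 1 ≤ (M : ℝ) ^ (l + 1) := by
    have h2 : (2 : ℝ) ≤ M := by exact_mod_cast hM2
    rw [pow_succ]
    nlinarith
  have h2 : ((M : ℝ) ^ l + 1) ^ d ≤ (M : ℝ) ^ (((l : ℝ) + 1) * d) := by
    calc ((M : ℝ) ^ l + 1) ^ d ≤ ((M : ℝ) ^ (l + 1)) ^ d :=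
          pow_le_pow_left₀ (by positivity) h1 d
      _ = (M : ℝ) ^ (((l : ℝ) + 1) * d) := by
          rw [← pow_mul, ← Real.rpow_natCast]
          push_cast
          rfl
  have h3 : ((M : ℝ) ^ (-ε)) ^ t ≤ (M : ℝ) ^ (-(((l : ℝ) + 1) * d + 1)) := by
    rw [← Real.rpow_natCast, ← Real.rpow_mul hM0.le]
    apply Real.rpow_le_rpow_of_exponent_le hM1
    linarith
  calc ((M : ℝ) ^ l + 1) ^ d * ((M : ℝ) ^ (-ε)) ^ t
      ≤ (M : ℝ) ^ (((l : ℝ) + 1) * d) * (M : ℝ) ^ (-(((l : ℝ) + 1) * d + 1)) :=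
        mul_le_mul h2 h3 (by positivity) (by positivity)
    _ = (M : ℝ)⁻¹ := by
        rw [← Real.rpow_add hM0, ← Real.rpow_neg_one]
        congr 1
        ring
    _ ≤ p ^ t / 2 := by
        rw [div_le_iff₀ (by positivity)] at hM
        rw [inv_le_comm₀ hM0 (by positivity), inv_div, div_le_iff₀ (by positivity)]
        linarith

theorem nest (h : DrcStmt) : NestStmt := by
  intro l
  induction l with
  | zero =>
    intro d δ ε hδ hε
    refine ⟨0, ?_⟩
    intro M _ 𝓖 h𝓖
    refine ⟨fun j => match j with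
      | 0 => 𝓖
      | (_ + 1) => ∅, ⟨?_, ?_⟩, rfl⟩
    · rw [pow_zero, mul_one] at h𝓖
      have : (0 : ℝ) < 𝓖.card := lt_of_lt_of_le hδ h𝓖
      exact Finset.card_pos.mp (by exact_mod_cast this)
    · intro j hj
      omega
  | succ l ih =>
    intro d δ ε hδ hε
    set p : ℝ := min δ 1 with hp
    have hp0 : 0 < p := lt_min hδ one_pos
    have hp1 : p ≤ 1 := min_le_right _ _
    obtain ⟨t, ht⟩ := exists_nat_ge ((((l : ℝ) + 1) * d + 1) / ε)
    rw [div_le_iff₀ hε] at ht
    obtain ⟨M1, hM1⟩ := exists_nat_ge (2 / p ^ t)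
    obtain ⟨M0, hM0⟩ := ih d (p ^ t / 2) ε (by positivity) hε
    refine ⟨max 2 (max M1 M0), ?_⟩
    intro M hM 𝓖 h𝓖
    have hMa : 2 ≤ M := le_trans (le_max_left _ _) hM
    have hMb : M1 ≤ M := le_trans (le_trans (le_max_left _ _) (le_max_right _ _)) hM
    have hMc : M0 ≤ M := le_trans (le_trans (le_max_right _ _) (le_max_right _ _)) hM
    have hMpos : (0 : ℝ) < M := by
      have : 0 < M := by omega
      exact_mod_cast this
    have _ : Nonempty (Fin M) := ⟨⟨0, by omega⟩⟩
    have hcardG : 𝓖.card ≤ (univ.filter (fun q : (Fin l → Fin M) × Fin M =>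
        (Fin.snoc q.1 q.2 : Fin (l + 1) → Fin M) ∈ 𝓖)).card := by
      apply Finset.card_le_card_of_injOn
        (fun g : Fin (l + 1) → Fin M => ((Fin.init g : Fin l → Fin M), g (Fin.last l)))
      · intro g hg
        rw [Finset.mem_coe] at hg
        rw [Finset.mem_coe, Finset.mem_filter]
        refine ⟨Finset.mem_univ _, ?_⟩
        rw [Fin.snoc_init_self]
        exact hg
      · intro g _ g' _ hgg
        rw [Prod.mk.injEq] at hgg
        rw [← Fin.snoc_init_self g, ← Fin.snoc_init_self g', hgg.1, hgg.2]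
    have hcA : (Fintype.card (Fin l → Fin M) : ℝ) = (M : ℝ) ^ l := by
      simp
    have hcW : (Fintype.card (Fin M) : ℝ) = (M : ℝ) := by simp
    obtain ⟨A', hA', hS⟩ := h (Fin l → Fin M) (Fin M)
      (univ.filter (fun q : (Fin l → Fin M) × Fin M =>
        (Fin.snoc q.1 q.2 : Fin (l + 1) → Fin M) ∈ 𝓖)) p ((M : ℝ) ^ (-ε)) t d hp0 hp1
      (by positivity) (by
        rw [hcA, hcW]
        calc p * (M : ℝ) ^ l * M ≤ δ * (M : ℝ) ^ (l + 1) := by
              rw [pow_succ, ← mul_assoc]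
              have : p ≤ δ := min_le_left _ _
              gcongr
          _ ≤ 𝓖.card := h𝓖
          _ ≤ _ := by exact_mod_cast hcardG)
      (by
        rw [hcA]
        apply numc l d t M p ε hp0 hMa
        · exact hM1.trans (by exact_mod_cast hMb)
        · linarith)
    rw [hcA] at hA'
    obtain ⟨G', ⟨hG0, hG1⟩, hGl⟩ := hM0 M hMc A' hA'
    refine ⟨Function.update G' (l + 1) 𝓖, ⟨?_, ?_⟩, Function.update_self _ _ _⟩
    · rw [Function.update_of_ne (by omega)]
      exact hG0
    · intro j hj S hSj hSd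
      rw [Function.update_of_ne (by omega)] at hSj
      rcases Nat.lt_or_ge j l with hjl | hjl
      · have hne : j + 1 ≠ l + 1 := by omega
        rw [Function.update_of_ne hne]
        exact hG1 j hjl S hSj hSd
      · have hjl' : j = l := by omega
        subst hjl'
        rw [Function.update_self]
        rw [hGl] at hSj
        have h5 := hS S hSj hSd
        rw [hcW] at h5
        have h6 : (M : ℝ) ^ (1 - ε) = (M : ℝ) ^ (-ε) * M := by
          rw [sub_eq_add_neg, Real.rpow_add hMpos, Real.rpow_one, mul_comm]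
        rw [h6]
        refine h5.trans ?_
        apply le_of_eq
        congr 2
        ext w
        simp only [Finset.mem_filter, Finset.mem_univ, true_and]

end Pool.Agent.Helper89.PU
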